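import Pool.Agent.X315.VitRot

/-!
Convex bodies of `ℂⁿ` with `i K ⊆ d K`: cylindrical capacity, volume and number of facets.
-/

set_option autoImplicit false

open Set Filter Topology MeasureTheory
open scoped Matrix Real ENNReal

namespace Pool.Agent.X130.VT

open Pool.Agent.TH845.Vit Pool.Agent.X315.Vit

variable {n : ℕ}

/-- the closed ball with centre `c` and radius `s` -/
def Bl (c : Ph n) (s : ℝ) : Set (Ph n) := {z | pr (z - c) (z - c) ≤ s ^ 2}

lemma vol_Bl (hn : 0 < n) (c : Ph n) {s : ℝ} (hs : 0 < s) :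
    (volume (Bl c s)).toReal = (π * s ^ 2) ^ n / n.factorial := by
  set S : Matrix (Fin (n + n)) (Fin (n + n)) ℝ := Matrix.diagonal fun _ => s with hS
  have hdet : S.det = s ^ (n + n) := by
    rw [hS, Matrix.det_diagonal, Finset.prod_const, Finset.card_univ, Fintype.card_fin]
  have h1 : (volume ((fun y => c + (ev n).symm (S *ᵥ y)) ''
      {x : Fin (n + n) → ℝ | x ⬝ᵥ x ≤ 1})).toReal = S.det * (Real.pi ^ n / n.factorial) :=
    Pool.Agent.Y507.Vit.vol_ell hn (S := S) (by rw [hdet]; positivity) c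
  have hSm : ∀ y : Fin (n + n) → ℝ, S *ᵥ y = s • y := by
    intro y
    funext i
    rw [hS, Matrix.mulVec_diagonal]
    rfl
  have h2 : (fun y => c + (ev n).symm (S *ᵥ y)) '' {x : Fin (n + n) → ℝ | x ⬝ᵥ x ≤ 1} = Bl c s := by
    ext z
    constructor
    · rintro ⟨y, hy, rfl⟩
      have hy' : y ⬝ᵥ y ≤ 1 := hy
      show pr _ _ ≤ s ^ 2
      simp only [add_sub_cancel_left]
      rw [← dot_ev, (ev n).apply_symm_apply, hSm, smul_dotProduct, dotProduct_smul]
      simp only [smul_eq_mul]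
      nlinarith [sq_nonneg s]
    · intro hz
      have hz' : pr (z - c) (z - c) ≤ s ^ 2 := hz
      refine ⟨s⁻¹ • ev n (z - c), ?_, ?_⟩
      · show (s⁻¹ • ev n (z - c)) ⬝ᵥ (s⁻¹ • ev n (z - c)) ≤ 1
        rw [smul_dotProduct, dotProduct_smul, dot_ev, smul_eq_mul, smul_eq_mul]
        calc s⁻¹ * (s⁻¹ * pr (z - c) (z - c)) ≤ s⁻¹ * (s⁻¹ * s ^ 2) := by gcongr
          _ = 1 := by field_simp
      · show c + (ev n).symm (S *ᵥ (s⁻¹ • ev n (z - c))) = z
        rw [hSm, smul_smul, mul_inv_cancel₀ hs.ne', one_smul, (ev n).symm_apply_apply]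
        abel
  rw [h2, hdet] at h1
  rw [h1, mul_pow, ← pow_mul, two_mul]
  ring

lemma bl_ne_top (hn : 0 < n) (c : Ph n) {s : ℝ} (hs : 0 < s) : volume (Bl c s) ≠ ⊤ := by
  intro h
  have h1 := vol_Bl hn c hs
  rw [h, ENNReal.toReal_top] at h1
  have : (0 : ℝ) < (π * s ^ 2) ^ n / n.factorial := by positivity
  linarith

lemma vol_Bl' (hn : 0 < n) (c : Ph n) {s : ℝ} (hs : 0 < s) :
    volume (Bl c s) = ENNReal.ofReal ((π * s ^ 2) ^ n / n.factorial) := by
  rw [← vol_Bl hn c hs, ENNReal.ofReal_toReal (bl_ne_top hn c hs)]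

lemma pr_expand (z c : Ph n) : pr (z - c) (z - c) = pr z z - 2 * pr c z + pr c c := by
  unfold pr
  rw [Finset.mul_sum, ← Finset.sum_sub_distrib, ← Finset.sum_add_distrib]
  refine Finset.sum_congr rfl fun i _ => ?_
  simp only [Prod.fst_sub, Prod.snd_sub, Pi.sub_apply]
  ring

/-- a cap of a ball lies in a smaller ball -/
lemma cap_sub {l : Ph n} {R h : ℝ} (hh : 0 < h) (hl : pr l l ≤ (1 / h) ^ 2) {z : Ph n}
    (hz : pr z z ≤ R ^ 2) (hlz : 1 < pr l z) :
    pr (z - (h / Real.sqrt (pr l l)) • l) (z - (h / Real.sqrt (pr l l)) • l) ≤ R ^ 2 - h ^ 2 := by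
  have hll : 0 < pr l l := by
    rcases (pr_self_nonneg l).eq_or_lt with h0 | h0
    · have := pr_cs l z
      rw [← h0, zero_mul] at this
      nlinarith
    · exact h0
  set q := Real.sqrt (pr l l) with hq
  have hq0 : 0 < q := Real.sqrt_pos.2 hll
  have hqq : q ^ 2 = pr l l := Real.sq_sqrt hll.le
  rw [pr_expand, pr_smul_left, pr_smul_left, pr_smul_right, ← hqq]
  have h1 : h / q * (h / q * q ^ 2) = h ^ 2 := by field_simp
  rw [h1]
  have hqh : q ≤ 1 / h := by
    have h2 : q ^ 2 ≤ (1 / h) ^ 2 := hqq ▸ hl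
    exact (pow_le_pow_iff_left₀ hq0.le (by positivity) (by norm_num)).1 h2
  have h3 : h ≤ 1 / q := by
    rw [le_div_iff₀ hq0]
    rw [le_div_iff₀ hh] at hqh
    linarith
  have h4 : h / q * pr l z ≥ h ^ 2 := by
    have h5 : h / q ≥ h * h := by
      rw [div_eq_mul_one_div]
      exact mul_le_mul_of_nonneg_left h3 hh.le
    have h6 : h / q * pr l z ≥ h / q * 1 := by
      exact mul_le_mul_of_nonneg_left hlz.le (by positivity)
    nlinarith
  linarith

/-- the volume of a symmetric polytope whose facets have distance at least `h` from the centre -/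
theorem vol_poly (hn : 0 < n) {N : ℕ} (l : Fin N → Ph n) {h τ : ℝ} (hh : 0 < h) (hτ0 : 0 < τ)
    (hτ1 : τ < 1) (hl : ∀ j, pr (l j) (l j) ≤ (1 / h) ^ 2) {G : Set (Ph n)}
    (hG : ∀ z, (∀ j, |pr (l j) z| ≤ 1) → z ∈ G) (hGf : volume G ≠ ⊤) :
    (1 - 2 * N * (1 - τ) ^ n) * ((π * (h ^ 2 / τ)) ^ n / n.factorial) ≤ (volume G).toReal := by
  set R := h / Real.sqrt τ with hR
  have hsτ : 0 < Real.sqrt τ := Real.sqrt_pos.2 hτ0
  have hR0 : 0 < R := by positivity
  have hR2 : R ^ 2 = h ^ 2 / τ := by rw [hR, div_pow, Real.sq_sqrt hτ0.le]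
  set s := Real.sqrt (1 - τ) * R with hs
  have hs1 : 0 < Real.sqrt (1 - τ) := Real.sqrt_pos.2 (by linarith)
  have hs0 : 0 < s := by positivity
  have hs2 : s ^ 2 = (1 - τ) * (h ^ 2 / τ) := by
    rw [hs, mul_pow, Real.sq_sqrt (by linarith), hR2]
  set c : Fin N → Ph n := fun j => (h / Real.sqrt (pr (l j) (l j))) • l j with hc
  have hsub : Bl (0 : Ph n) R ⊆ G ∪ ⋃ j, (Bl (c j) s ∪ Bl (-c j) s) := by
    intro z hz
    have hz' : pr z z ≤ R ^ 2 := by
      have : pr (z - 0) (z - 0) ≤ R ^ 2 := hz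
      rwa [sub_zero] at this
    by_cases hall : ∀ j, |pr (l j) z| ≤ 1
    · exact Or.inl (hG z hall)
    · push Not at hall
      obtain ⟨j, hj⟩ := hall
      refine Or.inr (mem_iUnion.2 ⟨j, ?_⟩)
      have hRs : R ^ 2 - h ^ 2 = s ^ 2 := by
        rw [hs2, hR2]
        field_simp
      rcases lt_abs.1 hj with h1 | h1
      · refine Or.inl ?_
        have := cap_sub hh (hl j) hz' h1
        rw [hRs] at this
        exact this
      · refine Or.inr ?_
        have hneg : 1 < pr (l j) (-z) := by rwa [pr_neg_right]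
        have hzz : pr (-z) (-z) ≤ R ^ 2 := by
          have e : pr (-z) (-z) = pr z z := by
            rw [pr_neg_right, pr_comm, pr_neg_right, neg_neg]
          rwa [e]
        have := cap_sub hh (hl j) hzz hneg
        rw [hRs] at this
        show pr (z - -c j) (z - -c j) ≤ s ^ 2
        have e2 : z - -c j = -(-z - c j) := by abel
        rw [e2, pr_neg_right, pr_comm, pr_neg_right, neg_neg]
        exact this
  have h1 : volume (Bl (0 : Ph n) R) ≤ volume G + ∑ j : Fin N, (volume (Bl (c j) s) +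
      volume (Bl (-c j) s)) := by
    refine (measure_mono hsub).trans ((measure_union_le _ _).trans ?_)
    gcongr
    refine (measure_iUnion_fintype_le _ _).trans ?_
    exact Finset.sum_le_sum fun j _ => measure_union_le _ _
  have h2 : ∑ j : Fin N, (volume (Bl (c j) s) + volume (Bl (-c j) s)) =
      ENNReal.ofReal (2 * N * ((π * s ^ 2) ^ n / n.factorial)) := by
    have : ∀ j : Fin N, volume (Bl (c j) s) + volume (Bl (-c j) s) =
        ENNReal.ofReal (2 * ((π * s ^ 2) ^ n / n.factorial)) := by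
      intro j
      rw [vol_Bl' hn _ hs0, vol_Bl' hn _ hs0, ← ENNReal.ofReal_add (by positivity) (by positivity)]
      congr 1
      ring
    rw [Finset.sum_congr rfl fun j _ => this j, Finset.sum_const, Finset.card_univ,
      Fintype.card_fin, nsmul_eq_mul, ← ENNReal.ofReal_natCast,
      ← ENNReal.ofReal_mul (Nat.cast_nonneg _)]
    congr 1
    ring
  rw [h2, vol_Bl' hn _ hR0] at h1
  have h3 := ENNReal.toReal_mono (ENNReal.add_ne_top.2 ⟨hGf, ENNReal.ofReal_ne_top⟩) h1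
  rw [ENNReal.toReal_add hGf ENNReal.ofReal_ne_top, ENNReal.toReal_ofReal (by positivity),
    ENNReal.toReal_ofReal (by positivity), hR2, hs2] at h3
  have e : (π * ((1 - τ) * (h ^ 2 / τ))) ^ n = (1 - τ) ^ n * (π * (h ^ 2 / τ)) ^ n := by
    rw [← mul_pow]
    congr 1
    ring
  rw [e] at h3
  have e2 : (1 - 2 * N * (1 - τ) ^ n) * ((π * (h ^ 2 / τ)) ^ n / n.factorial) =
      (π * (h ^ 2 / τ)) ^ n / n.factorial -
        2 * N * ((1 - τ) ^ n * (π * (h ^ 2 / τ)) ^ n / n.factorial) := by ring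
  rw [e2]
  linarith

/-- The basic bound: `c_Z(K) ≤ 4 d ρ²` if `i (K - a) ⊆ d (K - a)`; `2ρ` is the minimal width. -/
theorem width_bound (hn : 0 < n) {K : Set (Ph n)} {a : Ph n} (h : CB (tr K a)) {d : ℝ}
    (hd : 0 < d) (hJ : ∀ z ∈ tr K a, ∃ y ∈ tr K a, J z = d • y) :
    ∃ ρ : ℝ, 0 < ρ ∧ (∀ z : Ph n, pr z z ≤ ρ ^ 2 → z ∈ tr K a) ∧
      ∀ r : ℝ, 0 < r → 4 * d * ρ ^ 2 < π * r ^ 2 → InCyl K r := by
  obtain ⟨u, ρ, hu1, hρ, hw, hb⟩ := exists_width hn h
  refine ⟨ρ, hρ, hb, fun r hr hlt => ?_⟩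
  have huw : om u (J u) = 1 := by
    rw [← pr_J, pr_J_J, hu1]
  have hdρ : 0 < d * ρ := by positivity
  refine inCyl_of ⟨0, hn⟩ (a := a) (u := (d * ρ) • u) (w := (d * ρ)⁻¹ • J u) (α := d * ρ ^ 2) hr
    (by positivity) (by linarith) ?_ ?_ ?_
  · rw [om_smul_left, ← pr_J, pr_smul_left, pr_J_J, hu1]
    field_simp
  · intro z hz
    rw [pr_smul_left, abs_mul, abs_of_pos hdρ]
    have h1 := hw _ (show z - a ∈ tr K a from ⟨z, hz, rfl⟩)
    calc d * ρ * |pr u (z - a)| ≤ d * ρ * ρ := mul_le_mul_of_nonneg_left h1 hdρ.le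
      _ = d * ρ ^ 2 := by ring
  · intro z hz
    rw [pr_smul_left, abs_mul, abs_of_pos (inv_pos.2 hdρ), pr_J_left, abs_neg]
    obtain ⟨y, hy, hyz⟩ := hJ _ (show z - a ∈ tr K a from ⟨z, hz, rfl⟩)
    rw [hyz, pr_smul_right, abs_mul, abs_of_pos hd]
    have h1 := hw _ hy
    calc (d * ρ)⁻¹ * (d * |pr u y|) ≤ (d * ρ)⁻¹ * (d * ρ) := by gcongr
      _ = 1 := inv_mul_cancel₀ hdρ.ne'

/-- Bodies near polytopes with few facets. -/
theorem facets (hn : 0 < n) {K : Set (Ph n)} {a : Ph n} (h : CB (tr K a)) (hk : IsCompact K)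
    {d : ℝ} (hd : 0 < d) (hJ : ∀ z ∈ tr K a, ∃ y ∈ tr K a, J z = d • y) {N : ℕ}
    (l : Fin N → Ph n) {lam : ℝ} (hlam : 0 < lam) (h1 : ∀ z ∈ K, ∀ j, |pr (l j) (z - a)| ≤ 1)
    (h2 : ∀ z, (∀ j, |pr (l j) (z - a)| ≤ 1 / lam) → z ∈ K) {τ : ℝ} (hτ0 : 0 < τ) (hτ1 : τ < 1)
    (hN : (4 * d * lam ^ 2 * τ / π) ^ n + 2 * N * (1 - τ) ^ n ≤ 1) {r : ℝ} (hr : 0 < r)
    (hlt : n.factorial * (volume K).toReal < (π * r ^ 2) ^ n) : InCyl K r := by
  obtain ⟨ρ, hρ, hb, hcyl⟩ := width_bound hn h hd hJ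
  refine hcyl r hr ?_
  have hl : ∀ j, pr (lam • l j) (lam • l j) ≤ (1 / (ρ / lam)) ^ 2 := by
    intro j
    rw [pr_smul_left, pr_smul_right]
    set q2 := pr (l j) (l j) with hq2
    have hq0 : 0 ≤ q2 := pr_self_nonneg _
    have h3 : ρ ^ 2 * q2 ≤ 1 := by
      rcases hq0.eq_or_lt with h0 | h0
      · rw [← h0]; norm_num
      set q := Real.sqrt q2 with hq
      have hqpos : 0 < q := Real.sqrt_pos.2 h0
      have hqq : q ^ 2 = q2 := Real.sq_sqrt hq0
      have hmem : (ρ / q) • l j ∈ tr K a := by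
        refine hb _ ?_
        rw [pr_smul_left, pr_smul_right, ← hq2, ← hqq]
        apply le_of_eq
        field_simp
      obtain ⟨x, hx, hxe⟩ := hmem
      have h4 := h1 x hx j
      have hxe' : x - a = (ρ / q) • l j := hxe
      rw [hxe', pr_smul_right, ← hq2, ← hqq] at h4
      have e : ρ / q * q ^ 2 = ρ * q := by field_simp
      rw [e, abs_of_pos (by positivity)] at h4
      calc ρ ^ 2 * q2 = (ρ * q) ^ 2 := by rw [← hqq]; ring
        _ ≤ 1 ^ 2 := pow_le_pow_left₀ (by positivity) h4 2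
        _ = 1 := one_pow 2
    have e : (1 / (ρ / lam)) ^ 2 = lam ^ 2 * (1 / ρ ^ 2) := by field_simp
    rw [e]
    have h5 : q2 ≤ 1 / ρ ^ 2 := by
      rw [le_div_iff₀ (by positivity)]
      linarith
    calc lam * (lam * q2) = lam ^ 2 * q2 := by ring
      _ ≤ lam ^ 2 * (1 / ρ ^ 2) := mul_le_mul_of_nonneg_left h5 (by positivity)
  have hKf : volume (tr K a) ≠ ⊤ := h.comp.measure_lt_top.ne
  have hvol : volume (tr K a) = volume K := by
    have hmeas : (volume : Measure (Ph n)).IsAddHaarMeasure :=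
      Measure.prod.instIsAddHaarMeasure (volume : Measure (Fin n → ℝ))
        (volume : Measure (Fin n → ℝ))
    have himg : tr K a = (fun x => -a + x) '' K := by
      refine image_congr fun x _ => ?_
      abel
    rw [himg, image_add_left, measure_preimage_add]
  have h3 := vol_poly hn (fun j => lam • l j) (h := ρ / lam) (τ := τ) (by positivity) hτ0 hτ1 hl
    (G := tr K a) (by
      intro z hz
      refine ⟨z + a, h2 _ fun j => ?_, by show z + a - a = z; abel⟩
      rw [add_sub_cancel_right]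
      have := hz j
      rw [pr_smul_left, abs_mul, abs_of_pos hlam] at this
      rw [le_div_iff₀ hlam]
      linarith) hKf
  rw [hvol] at h3
  have hfac : (0 : ℝ) < n.factorial := by exact_mod_cast n.factorial_pos
  set X := (π * ((ρ / lam) ^ 2 / τ)) ^ n with hX
  have hX0 : 0 < X := by positivity
  have h4 : (1 - 2 * N * (1 - τ) ^ n) * X ≤ n.factorial * (volume K).toReal := by
    have := mul_le_mul_of_nonneg_left h3 hfac.le
    refine le_trans (le_of_eq ?_) this
    field_simp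
  have h5 : (4 * d * ρ ^ 2) ^ n = (4 * d * lam ^ 2 * τ / π) ^ n * X := by
    rw [hX, ← mul_pow]
    congr 1
    field_simp
  have h6 : (4 * d * ρ ^ 2) ^ n < (π * r ^ 2) ^ n := by
    rw [h5]
    refine lt_of_le_of_lt ?_ hlt
    refine le_trans ?_ h4
    exact mul_le_mul_of_nonneg_right (by linarith) hX0.le
  exact lt_of_pow_lt_pow_left₀ n (by positivity) h6

end Pool.Agent.X130.VT
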